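import Mathlib

set_option autoImplicit false

namespace Pool.Agent.MZQ

open Finset

/-- the gap which is needed -/
theorem trop_gap {m : ℕ} (v : Fin m → ℝ) (hv : StrictMono v) (hv0 : ∀ j, 0 < v j) (K : ℝ) :
    ∃ R : ℕ, ∀ l h : Fin m, l < h → ∀ E : ℕ, R ≤ E → K * v l ^ E < v h ^ E := by
  have h1 : ∀ l h : Fin m, ∃ R : ℕ, l < h → ∀ E : ℕ, R ≤ E → K * v l ^ E < v h ^ E := by
    intro l h
    by_cases hlh : l < h
    · have h2 : 1 < v h / v l := by
        rw [one_lt_div (hv0 l)]
        exact hv hlh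
      obtain ⟨R, hR⟩ := pow_unbounded_of_one_lt K h2
      refine ⟨R, fun _ E hE => ?_⟩
      have h3 : K < (v h / v l) ^ E := lt_of_lt_of_le hR (pow_le_pow_right₀ h2.le hE)
      rw [div_pow, lt_div_iff₀ (pow_pos (hv0 l) E)] at h3
      exact h3
    · exact ⟨0, fun h' => absurd h' hlh⟩
  choose f hf using h1
  refine ⟨∑ l, ∑ h, f l h, fun l h hlh E hE => hf l h hlh E (le_trans ?_ hE)⟩
  calc f l h ≤ ∑ h', f l h' := Finset.single_le_sum (f := fun h' => f l h')
        (fun _ _ => Nat.zero_le _) (Finset.mem_univ h)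
    _ ≤ ∑ l', ∑ h', f l' h' := Finset.single_le_sum (f := fun l' => ∑ h', f l' h')
        (fun _ _ => Nat.zero_le _) (Finset.mem_univ l)

/-- **Nonsingularity**: a matrix close to `B j * v j ^ e i`, with distinct `v j > 0` and
exponents `e i` far apart, is not singular. -/
theorem trop {m : ℕ} (v : Fin m → ℝ) (hv : StrictMono v) (hv0 : ∀ j, 0 < v j) :
    ∃ R : ℕ, ∀ (e : Fin m → ℕ), (∀ i i' : Fin m, i < i' → e i + R ≤ e i') →
      ∀ (B : Fin m → ℝ), (∀ j, B j ≠ 0) → ∀ M : Matrix (Fin m) (Fin m) ℝ,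
      (∀ i j, |M i j - B j * v j ^ e i| ≤ 1 / 4 * (|B j| * v j ^ e i)) → M.det ≠ 0 := by
  rcases Nat.eq_zero_or_pos m with hm | hm
  · subst hm
    exact ⟨0, fun e _ B _ M _ => by simp⟩
  have hmR : (1 : ℝ) ≤ m := by exact_mod_cast hm
  obtain ⟨R, hR⟩ := trop_gap v hv hv0 (4 * (m : ℝ) ^ 2)
  refine ⟨R, fun e he B hB M hM hdet => ?_⟩
  obtain ⟨c, hc, hMc⟩ := Matrix.exists_mulVec_eq_zero_iff.2 hdet
  obtain ⟨j₀, hj₀⟩ := Function.ne_iff.1 hc
  -- the sizes
  obtain ⟨T, hT⟩ : ∃ T : Fin m → Fin m → ℝ, ∀ i j, T i j = |c j| * (|B j| * v j ^ e i) :=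
    ⟨_, fun _ _ => rfl⟩
  have hT0 : ∀ i j, 0 ≤ T i j := by
    intro i j
    rw [hT]
    have := (hv0 j).le
    positivity
  have hup : ∀ i j, |M i j * c j| ≤ 5 / 4 * T i j := by
    intro i j
    have h1 := hM i j
    have h2 : |M i j| ≤ 5 / 4 * (|B j| * v j ^ e i) := by
      have h3 : |B j * v j ^ e i| = |B j| * v j ^ e i := by
        rw [abs_mul, abs_of_nonneg (pow_nonneg (hv0 j).le _)]
      have h4 : |M i j| ≤ |M i j - B j * v j ^ e i| + |B j * v j ^ e i| := by
        have := abs_add_le (M i j - B j * v j ^ e i) (B j * v j ^ e i)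
        rwa [sub_add_cancel] at this
      linarith
    rw [abs_mul, hT, mul_comm |M i j|]
    have := mul_le_mul_of_nonneg_left h2 (abs_nonneg (c j))
    linarith
  have hlow : ∀ i j, 3 / 4 * T i j ≤ |M i j * c j| := by
    intro i j
    have h1 := hM i j
    have h2 : 3 / 4 * (|B j| * v j ^ e i) ≤ |M i j| := by
      have h3 : |B j * v j ^ e i| = |B j| * v j ^ e i := by
        rw [abs_mul, abs_of_nonneg (pow_nonneg (hv0 j).le _)]
      have h4 : |B j * v j ^ e i| ≤ |M i j - B j * v j ^ e i| + |M i j| := by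
        have := abs_sub_abs_le_abs_sub (B j * v j ^ e i) (M i j)
        rw [abs_sub_comm] at this
        linarith
      linarith
    rw [abs_mul, hT, mul_comm |M i j|]
    have := mul_le_mul_of_nonneg_left h2 (abs_nonneg (c j))
    linarith
  -- two large terms in every row
  have hrow : ∀ i : Fin m, ∃ a b : Fin m, a < b ∧ (∀ j, T i j ≤ 2 * m * T i a) ∧
      ∀ j, T i j ≤ 2 * m * T i b := by
    intro i
    obtain ⟨s, _, hs⟩ := Finset.exists_max_image (Finset.univ : Finset (Fin m)) (T i)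
      ⟨j₀, Finset.mem_univ _⟩
    have hs' : ∀ j, T i j ≤ T i s := fun j => hs j (Finset.mem_univ _)
    have hspos : 0 < T i s := by
      refine lt_of_lt_of_le ?_ (hs' j₀)
      rw [hT]
      have h1 : 0 < |c j₀| := abs_pos.2 hj₀
      have h2 : 0 < |B j₀| := abs_pos.2 (hB j₀)
      have h3 := hv0 j₀
      positivity
    have hsum : ∑ j, M i j * c j = 0 := congrFun hMc i
    obtain ⟨t, hts, ht⟩ : ∃ t, t ≠ s ∧ T i s ≤ 2 * m * T i t := by
      by_contra hcon
      push Not at hcon
      have h1 : M i s * c s = -∑ j ∈ Finset.univ.erase s, M i j * c j := by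
        rw [← Finset.add_sum_erase _ _ (Finset.mem_univ s)] at hsum
        linarith
      have h2 : |M i s * c s| ≤ ∑ j ∈ Finset.univ.erase s, 5 / 4 * T i j := by
        rw [h1, abs_neg]
        exact (Finset.abs_sum_le_sum_abs _ _).trans (Finset.sum_le_sum fun j _ => hup i j)
      have h3 : ∑ j ∈ Finset.univ.erase s, 5 / 4 * T i j ≤
          ∑ j ∈ Finset.univ.erase s, 5 / 4 * (T i s / (2 * m)) := by
        refine Finset.sum_le_sum fun j hj => ?_
        have h4 := hcon j (Finset.ne_of_mem_erase hj)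
        have h5 : T i j ≤ T i s / (2 * m) := by
          rw [le_div_iff₀ (by positivity)]
          linarith
        linarith
      rw [Finset.sum_const, nsmul_eq_mul] at h3
      have h6 : ((Finset.univ.erase s).card : ℝ) ≤ m := by
        have h7 := Finset.card_erase_le (s := (Finset.univ : Finset (Fin m))) (a := s)
        rw [Finset.card_univ, Fintype.card_fin] at h7
        exact_mod_cast h7
      have h8 : ((Finset.univ.erase s).card : ℝ) * (5 / 4 * (T i s / (2 * m))) ≤
          m * (5 / 4 * (T i s / (2 * m))) := mul_le_mul_of_nonneg_right h6 (by positivity)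
      have h9 : (m : ℝ) * (5 / 4 * (T i s / (2 * m))) = 5 / 8 * T i s := by
        have : (m : ℝ) ≠ 0 := by positivity
        field_simp
        ring
      have h10 := hlow i s
      linarith
    have hss : ∀ j, T i j ≤ 2 * m * T i s := fun j => by
      have h1 := hs' j
      nlinarith
    have htt : ∀ j, T i j ≤ 2 * m * T i t := fun j => (hs' j).trans ht
    rcases lt_or_gt_of_ne hts with h | h
    · exact ⟨t, s, h, htt, hss⟩
    · exact ⟨s, t, h, hss, htt⟩
  choose lo hi hlt hlo hhi using hrow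
  have hposlo : ∀ i, 0 < T i (lo i) := by
    intro i
    have h1 := hlo i j₀
    have h2 : 0 < T i j₀ := by
      rw [hT]
      have h1 : 0 < |c j₀| := abs_pos.2 hj₀
      have h2 : 0 < |B j₀| := abs_pos.2 (hB j₀)
      have h3 := hv0 j₀
      positivity
    by_contra h3
    have h4 : T i (lo i) = 0 := le_antisymm (not_lt.1 h3) (hT0 i _)
    rw [h4, mul_zero] at h1
    linarith
  have hstep : ∀ i i' : Fin m, i < i' → hi i ≤ lo i' := by
    intro i i' hii
    by_contra hcon
    rw [not_le] at hcon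
    have hE := he i i' hii
    obtain ⟨E, hEd⟩ : ∃ E : ℕ, e i' = e i + E := ⟨e i' - e i, by omega⟩
    have hgap := hR (lo i') (hi i) hcon E (by omega)
    have hT' : ∀ j, T i' j = T i j * v j ^ E := by
      intro j
      rw [hT, hT, hEd, pow_add]
      ring
    have h1 := hlo i' (hi i)
    rw [hT', hT'] at h1
    have h2 := hhi i (lo i')
    have h3 := hposlo i'
    rw [hT'] at h3
    have hvl : 0 < v (lo i') ^ E := pow_pos (hv0 _) E
    have hvh : 0 < v (hi i) ^ E := pow_pos (hv0 _) E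
    have h4 : 0 < T i (lo i') := pos_of_mul_pos_left h3 hvl.le
    -- T i l * vh^E ≤ 2 m T i h vh^E ≤ 4 m² T i l vl^E
    have h5 : T i (lo i') * v (hi i) ^ E ≤ 2 * m * (T i (hi i) * v (hi i) ^ E) := by
      have := mul_le_mul_of_nonneg_right h2 hvh.le
      linarith
    have h6 : 2 * m * (T i (hi i) * v (hi i) ^ E) ≤
        2 * m * (2 * m * (T i (lo i') * v (lo i') ^ E)) :=
      mul_le_mul_of_nonneg_left h1 (by positivity)
    have h7 : T i (lo i') * v (hi i) ^ E ≤ T i (lo i') * (4 * (m : ℝ) ^ 2 * v (lo i') ^ E) := by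
      calc _ ≤ _ := h5
        _ ≤ _ := h6
        _ = T i (lo i') * (4 * (m : ℝ) ^ 2 * v (lo i') ^ E) := by ring
    have h8 := le_of_mul_le_mul_left h7 h4
    linarith
  have hcount : ∀ n : ℕ, ∀ hn : n < m, n + 1 ≤ (hi ⟨n, hn⟩ : ℕ) := by
    intro n
    induction n with
    | zero =>
      intro hn
      have h1 := hlt ⟨0, hn⟩
      rw [Fin.lt_def] at h1
      omega
    | succ n ih =>
      intro hn
      have h1 := ih (by omega)
      have h2 := hstep ⟨n, by omega⟩ ⟨n + 1, hn⟩ (by rw [Fin.lt_def]; simp)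
      have h3 := hlt ⟨n + 1, hn⟩
      rw [Fin.le_def] at h2
      rw [Fin.lt_def] at h3
      omega
  have h1 := hcount (m - 1) (by omega)
  have h2 := (hi ⟨m - 1, by omega⟩).2
  omega

/-- the same for distinct `v j > 0` in any order -/
theorem trop_inj {m : ℕ} (v : Fin m → ℝ) (hv : Function.Injective v) (hv0 : ∀ j, 0 < v j) :
    ∃ R : ℕ, ∀ (e : Fin m → ℕ), (∀ i i' : Fin m, i < i' → e i + R ≤ e i') →
      ∀ (B : Fin m → ℝ), (∀ j, B j ≠ 0) → ∀ M : Matrix (Fin m) (Fin m) ℝ,
      (∀ i j, |M i j - B j * v j ^ e i| ≤ 1 / 4 * (|B j| * v j ^ e i)) → M.det ≠ 0 := by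
  have h1 : StrictMono (v ∘ Tuple.sort v) :=
    (Tuple.monotone_sort v).strictMono_of_injective (hv.comp (Tuple.sort v).injective)
  obtain ⟨R, hR⟩ := trop (v ∘ Tuple.sort v) h1 (fun j => hv0 _)
  refine ⟨R, fun e he B hB M hM hdet => ?_⟩
  refine hR e he (fun j => B (Tuple.sort v j)) (fun j => hB _)
    (M.submatrix id (Tuple.sort v)) (fun i j => hM i (Tuple.sort v j)) ?_
  rw [Matrix.det_permute', hdet, mul_zero]

end Pool.Agent.MZQ
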